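import Pool.Agent.Lib.MP_fa837f_gt.TS.Iface

/-!
HYP: all subspaces of codimension at most one belong to the class `Built`.
-/

set_option autoImplicit false

namespace Pool.Agent.Lib.MP_fa837f_gt.TS.H4

open Pool.Agent.Lib.MP_fa837f_gt Pool.Agent.Lib.MP_fa837f_gt.TS

/-- The subspace of all `x` with `∑ a_i x_i = 0`. -/
def hypSub {n : ℕ} (a : Fin n → ℝ) : Submodule ℝ (EuclideanSpace ℝ (Fin n)) where
  carrier := {x | ∑ i, a i * x i = 0}
  add_mem' := by
    intro x y hx hy
    show ∑ i, a i * (x i + y i) = 0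
    simp only [mul_add, Finset.sum_add_distrib]
    rw [show ∑ i, a i * x i = 0 from hx, show ∑ i, a i * y i = 0 from hy, add_zero]
  zero_mem' := by
    show ∑ i, a i * (0 : ℝ) = 0
    simp
  smul_mem' := by
    intro c x hx
    show ∑ i, a i * (c * x i) = 0
    have h : ∀ i, a i * (c * x i) = c * (a i * x i) := fun i => by ring
    simp only [h]
    rw [← Finset.mul_sum, show ∑ i, a i * x i = 0 from hx, mul_zero]

theorem mem_hyp {n : ℕ} (a : Fin n → ℝ) (x : EuclideanSpace ℝ (Fin n)) :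
    x ∈ hypSub a ↔ ∑ i, a i * x i = 0 := Iff.rfl

theorem eq_hyp {n : ℕ} (H : Submodule ℝ (EuclideanSpace ℝ (Fin n)))
    (h : n ≤ Module.finrank ℝ H + 1) : ∃ a : Fin n → ℝ, H = hypSub a := by
  have h1 := H.finrank_add_finrank_orthogonal
  rw [finrank_euclideanSpace_fin] at h1
  have h2 : Module.finrank ℝ Hᗮ ≤ 1 := by omega
  obtain ⟨v, hv⟩ := finrank_le_one_iff.1 h2
  refine ⟨fun i => (v : EuclideanSpace ℝ (Fin n)) i, ?_⟩
  ext x
  rw [mem_hyp]
  have h3 : inner ℝ (v : EuclideanSpace ℝ (Fin n)) x =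
      ∑ i, (v : EuclideanSpace ℝ (Fin n)) i * x i := by
    rw [PiLp.inner_apply]
    refine Finset.sum_congr rfl fun i _ => ?_
    simp [mul_comm]
  rw [← h3]
  constructor
  · intro hx
    rw [real_inner_comm]
    exact (Submodule.mem_orthogonal H _).1 v.2 x hx
  · intro hx
    rw [← H.orthogonal_orthogonal, Submodule.mem_orthogonal]
    intro u hu
    obtain ⟨c, hc⟩ := hv ⟨u, hu⟩
    have h4 : u = c • (v : EuclideanSpace ℝ (Fin n)) := by
      have := congrArg Subtype.val hc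
      simpa using this.symm
    rw [h4, inner_smul_left, hx, mul_zero]

theorem hyp_perm {n : ℕ} (σ : Equiv.Perm (Fin n)) (a : Fin n → ℝ) :
    permSub σ (hypSub fun i => a (σ i)) = hypSub a := by
  ext x
  show ∑ i, a (σ i) * x (σ i) = 0 ↔ ∑ i, a i * x i = 0
  rw [Equiv.sum_comp σ fun i => a i * x i]

theorem hyp_dirSum {n : ℕ} (a : Fin (n + 1) → ℝ) (h : a (Fin.natAdd n 0) = 0) :
    dirSum (hypSub fun i => a (Fin.castAdd 1 i)) (⊤ : Submodule ℝ (EuclideanSpace ℝ (Fin 1))) =
      hypSub a := by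
  ext x
  show (∑ i, a (Fin.castAdd 1 i) * x (Fin.castAdd 1 i) = 0 ∧ _ ∈ (⊤ : Submodule ℝ _)) ↔
    ∑ i, a i * x i = 0
  rw [Fin.sum_univ_add (fun i => a i * x i), Fin.sum_univ_one]
  simp [h]

theorem hyp_twoSum {m : ℕ} (a : Fin (m + 2) → ℝ) :
    twoSum (hypSub (Fin.cons 1 fun i => a (Fin.castAdd 2 i) : Fin (m + 1) → ℝ))
      (hypSub (Fin.cons (-1) fun j => a (Fin.natAdd m j) : Fin (2 + 1) → ℝ)) = hypSub a := by
  ext x
  have h1 : ∀ z : ℝ, pcons z (fun i => x (Fin.castAdd 2 i)) ∈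
      hypSub (Fin.cons 1 fun i => a (Fin.castAdd 2 i) : Fin (m + 1) → ℝ) ↔
      z + ∑ i, a (Fin.castAdd 2 i) * x (Fin.castAdd 2 i) = 0 := by
    intro z
    rw [mem_hyp, Fin.sum_univ_succ]
    simp [pcons]
  have h2 : ∀ z : ℝ, pcons z (fun j => x (Fin.natAdd m j)) ∈
      hypSub (Fin.cons (-1) fun j => a (Fin.natAdd m j) : Fin (2 + 1) → ℝ) ↔
      -z + ∑ j, a (Fin.natAdd m j) * x (Fin.natAdd m j) = 0 := by
    intro z
    rw [mem_hyp, Fin.sum_univ_succ]
    simp [pcons]
  show (∃ z : ℝ, pcons z (fun i => x (Fin.castAdd 2 i)) ∈ _ ∧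
    pcons z (fun j => x (Fin.natAdd m j)) ∈ _) ↔ ∑ i, a i * x i = 0
  simp only [h1, h2]
  rw [Fin.sum_univ_add (fun i => a i * x i)]
  constructor
  · rintro ⟨z, h3, h4⟩
    linarith
  · intro h
    exact ⟨_, by rw [add_comm]; exact add_neg_cancel _, by rw [neg_neg]; exact h⟩

theorem hyp_proper {n : ℕ} (b : ℝ) (a : Fin n → ℝ) (hb : b ≠ 0) {i : Fin n} (hi : a i ≠ 0) :
    Proper (hypSub (Fin.cons b a : Fin (n + 1) → ℝ)) := by
  refine ⟨⟨pcons 1 (Pi.single i (-b / a i)), ?_, ?_⟩, ?_⟩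
  · rw [mem_hyp, Fin.sum_univ_succ]
    simp only [pcons, Fin.cons_zero, Fin.cons_succ, mul_one]
    rw [Finset.sum_eq_single i]
    · rw [Pi.single_eq_same]
      field_simp
      ring
    · intro j _ hj
      rw [Pi.single_eq_of_ne hj, mul_zero]
    · simp
  · simp [pcons]
  · rw [mem_hyp, Fin.sum_univ_succ]
    simp [pcons, hb]

theorem built_hyp : ∀ (n : ℕ) (a : Fin n → ℝ), Built (hypSub a) := by
  have hle : ∀ {n : ℕ} (H : Submodule ℝ (EuclideanSpace ℝ (Fin n))), Module.finrank ℝ H ≤ n := by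
    intro n H
    have := H.finrank_le
    rwa [finrank_euclideanSpace_fin] at this
  have h3 : ∀ (a : Fin (2 + 1) → ℝ), a 0 ≠ 0 → Built (hypSub a) := by
    intro a ha
    refine Built.small _ ?_
    have h : hypSub a ≠ ⊤ := by
      intro h
      have h4 : EuclideanSpace.single (0 : Fin 3) (1 : ℝ) ∈ hypSub a := by rw [h]; trivial
      rw [mem_hyp, Fin.sum_univ_succ] at h4
      simp at h4
      exact ha h4
    have h5 := Submodule.finrank_lt h
    rw [finrank_euclideanSpace_fin] at h5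
    omega
  intro n
  induction n with
  | zero => exact fun a => Built.small _ ((hle _).trans (by omega))
  | succ n ih =>
    intro a
    by_cases hz : ∃ i, a i = 0
    · obtain ⟨i, hi⟩ := hz
      rw [← hyp_perm (Equiv.swap i (Fin.natAdd n 0)) a]
      refine Built.perm _ _ ?_
      rw [← hyp_dirSum]
      · exact Built.dirSum _ _ (ih _) (Built.small _ ((hle _).trans (by omega)))
      · simp [hi]
    · push Not at hz
      match n, a, ih, hz with
      | 0, a, _, _ => exact Built.small _ ((hle _).trans (by omega))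
      | 1, a, _, _ => exact Built.small _ ((hle _).trans (by omega))
      | m + 2, a, ih, hz =>
        have key : Built (hypSub (n := (m + 1) + 2) a) := by
          rw [← hyp_twoSum]
          exact Built.twoSum _ _ (hyp_proper _ _ one_ne_zero (i := 0) (hz _))
            (hyp_proper _ _ (by norm_num) (i := 0) (hz _)) (ih _) (h3 _ (by simp))
        exact key

theorem hyp : HypStatement := by
  intro n H h
  obtain ⟨a, rfl⟩ := eq_hyp H h
  exact built_hyp n a

end Pool.Agent.Lib.MP_fa837f_gt.TS.H4
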