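import Pool.Agent.Lib.MP_fa837f_gt.TS.Iface

/-!
POS: positivity of the limit.
-/

set_option autoImplicit false

open MeasureTheory Set Filter Topology

namespace Pool.Agent.Lib.MP_fa837f_gt.TS.H4

open Pool.Agent.Lib.MP_fa837f_gt Pool.Agent.Lib.MP_fa837f_gt.TS

theorem slo_deriv {f : ℝ → ℝ} (hf : Slo f) (x : ℝ) : 0 ≤ deriv f x ∧ deriv f x ≤ 1 := by
  by_cases hd : DifferentiableAt ℝ f x
  · constructor
    · have h := hf.conc.slope_le_deriv (mem_univ x) (mem_univ (x + 1)) (by linarith) hd
      refine le_trans ?_ h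
      rw [slope_def_field]
      have := hf.mono x (x + 1) (by linarith)
      exact div_nonneg (by linarith) (by linarith)
    · have h := hf.conc.deriv_le_slope (mem_univ (x - 1)) (mem_univ x) (by linarith) hd
      refine h.trans ?_
      rw [slope_def_field]
      have := hf.lip (x - 1) x (by linarith)
      rw [div_le_one (by linarith)]
      linarith
  · rw [deriv_zero_of_not_differentiableAt hd]
    exact ⟨le_rfl, zero_le_one⟩

theorem pos (h1 : ExpiStatement) : PosStatement := by
  intro f g hf hg hc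
  set χ : ℝ → ℝ := fun ρ => f ρ + g ρ - ρ with hχ
  have hconc : ConcaveOn ℝ univ χ := by
    have h2 : ConcaveOn ℝ univ fun ρ : ℝ => -ρ := (convexOn_id convex_univ).neg
    have h3 := (hf.conc.add hg.conc).add h2
    have h4 : χ = (f + g) + fun ρ : ℝ => -ρ := by
      funext ρ
      simp [hχ, sub_eq_add_neg]
    rw [h4]
    exact h3
  obtain ⟨hint, -, -, -⟩ := h1 χ hconc hc
  have hnn : ∀ ρ, 0 ≤ Real.exp (χ ρ) * (deriv f ρ * deriv g ρ) := fun ρ =>
    mul_nonneg (Real.exp_pos _).le (mul_nonneg (slo_deriv hf ρ).1 (slo_deriv hg ρ).1)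
  have hmeas : AEStronglyMeasurable (fun ρ => Real.exp (χ ρ) * (deriv f ρ * deriv g ρ))
      volume :=
    hint.aestronglyMeasurable.mul
      ((measurable_deriv f).mul (measurable_deriv g)).aestronglyMeasurable
  have hint2 : Integrable fun ρ => Real.exp (χ ρ) * (deriv f ρ * deriv g ρ) := by
    refine hint.mono hmeas (Eventually.of_forall fun ρ => ?_)
    rw [Real.norm_of_nonneg (hnn ρ), Real.norm_of_nonneg (Real.exp_pos _).le]
    refine mul_le_of_le_one_right (Real.exp_pos _).le ?_
    exact mul_le_one₀ (slo_deriv hf ρ).2 (slo_deriv hg ρ).1 (slo_deriv hg ρ).2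
  show 0 < ∫ ρ, Real.exp (χ ρ) * (deriv f ρ * deriv g ρ)
  rw [integral_pos_iff_support_of_nonneg hnn hint2]
  -- a point `y < 0` with `χ y < χ 0`
  obtain ⟨y, hy1, hy2⟩ : ∃ y, χ y < χ 0 ∧ y < 0 :=
    ((hc.1.eventually (eventually_lt_atBot (χ 0))).and (eventually_lt_atBot 0)).exists
  have hdf : ∀ᵐ x, DifferentiableAt ℝ f x :=
    Monotone.ae_differentiableAt fun a b h => hf.mono a b h
  have hdg : ∀ᵐ x, DifferentiableAt ℝ g x :=
    Monotone.ae_differentiableAt fun a b h => hg.mono a b h
  have hsub : ∀ᵐ x, x ∈ Iio y →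
      x ∈ Function.support fun ρ => Real.exp (χ ρ) * (deriv f ρ * deriv g ρ) := by
    filter_upwards [hdf, hdg] with x h2 h3 h4
    have h4 : x < y := h4
    have h5 : HasDerivAt χ (deriv f x + deriv g x - 1) x :=
      (h2.hasDerivAt.add h3.hasDerivAt).sub (hasDerivAt_id x)
    have h6 : slope χ x y ≤ deriv f x + deriv g x - 1 :=
      hconc.slope_le_of_hasDerivAt (mem_univ x) (mem_univ y) h4 h5
    have h7 : (χ 0 - χ y) / (0 - y) ≤ (χ y - χ x) / (y - x) :=
      hconc.slope_anti_adjacent (mem_univ x) (mem_univ 0) h4 hy2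
    have h8 : 0 < (χ 0 - χ y) / (0 - y) := div_pos (by linarith) (by linarith)
    rw [slope_def_field] at h6
    have h9 : 0 < deriv f x + deriv g x - 1 := by linarith
    have hf' := (slo_deriv hf x).2
    have hg' := (slo_deriv hg x).2
    exact (mul_pos (Real.exp_pos _) (mul_pos (by linarith) (by linarith))).ne'
  have h2 : volume (Iio y) ≤
      volume (Function.support fun ρ => Real.exp (χ ρ) * (deriv f ρ * deriv g ρ)) :=
    measure_mono_ae hsub
  refine lt_of_lt_of_le ?_ h2
  rw [Real.volume_Iio]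
  exact ENNReal.zero_lt_top

end Pool.Agent.Lib.MP_fa837f_gt.TS.H4
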